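import Pool.Agent.Helper81.Sus2.Defs

/-!
# Nondeterministic machines whose memory has descriptions: definitions

The machines, the decompressors, and the registers which are known, are defined in `Sus2/Defs.lean`.
-/

namespace Pool.Agent.Helper81.Sus2

open Pool.Agent.Helper65.LinSpace Pool.Agent.Helper78.Mpc Pool.Agent.Helper28.Ram

/-- The computation is followed from the time `t₀`, and `D` is a description of the memory at the time
`t₀`. The known part of the memory at the time `t` (the contents of all known registers, read-only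
registers excluded, with names of at most `s` letters) has a description of at most `b` bits, which
says the content of a register if and only if the register is known. -/
def NBM.Short (A : NBM) (E : Decomp) (w y : List Bool) (g : ℕ → Bool) (s a b t₀ : ℕ)
    (D : List Bool) (t : ℕ) : Prop :=
  ∃ d : List Bool, d.length ≤ b ∧ ∀ i v : List Bool, i.length ≤ s → i.head? ≠ some false →
    (E.Says w y a d i v ↔ A.Known E w y g a t₀ D t i ∧ (A.conf w y g t).2 i = v)

/-- There is an accepting computation which can be divided into at most `2 ^ k` parts, and there are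
descriptions `D i` of at most `z` bits of the memory between the parts `i - 1` and `i`, with the
following bounds, where `n` is the length of the input word: states and names have at most `s` bits,
contents of registers at most `a` bits; in a part at most `c n` letters are guessed, and every register
which is read is known. What `D i` says is right, and every register which is described by `D (i + 1)`
is known at the end of the part `i`. In a part: if at no time strictly between `t` and `t'` the known
part of the memory has a description of at most `c n` bits, then there are at most `x` messages from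
the time `t` to the time `t'`, and `t' - t` is at most `2 ^ h (x + 1)` or `s < h`. For
`l = h + ⌊log₂ n⌋ + 1`: `x (s + l) l ^ 2 ≤ C (n + 1) ^ (3 / 2)`,
`(s + l) (h + 1) l ≤ C (n + 1) ^ (1 / 2)`, `a l ^ 2 ≤ C (n + 1)`, and
`(k + 1) (z + s + l) ≤ c (n + 1)`. -/
def NBM.Good (A : NBM) (E : Decomp) (c : ℕ) (C : ℝ) (w y : List Bool) : Prop :=
  ∃ (g : ℕ → Bool) (r s a x h z k K : ℕ) (τ : ℕ → ℕ) (D : ℕ → List Bool), A.AcceptsAt w y g r ∧
    A.Fits w y g r s a ∧ τ 0 = 0 ∧ τ K = r ∧ 0 < K ∧ K ≤ 2 ^ k ∧
    (∀ i < K, τ i ≤ τ (i + 1) ∧ A.guesses w y g (τ i) (τ (i + 1)) ≤ c * w.length ∧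
      (∀ t, τ i ≤ t → t < τ (i + 1) →
        A.Known E w y g a (τ i) (D i) t (A.addr (A.conf w y g t).1)) ∧
      ∀ t t', τ i ≤ t → t ≤ t' → t' ≤ τ (i + 1) →
        (∀ u, t < u → u < t' → ¬A.Short E w y g s a (c * w.length) (τ i) (D i) u) →
        A.msgs w y g t t' ≤ x ∧ (t' ≤ t + 2 ^ h * (x + 1) ∨ s < h)) ∧
    (∀ i, 0 < i → i < K → (D i).length ≤ z ∧
      ∀ j v : List Bool, j.length ≤ s → j.head? ≠ some false → E.Says w y a (D i) j v →
        (A.conf w y g (τ i)).2 j = v ∧ A.Known E w y g a (τ (i - 1)) (D (i - 1)) (τ i) j) ∧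
    (x : ℝ) * ((s : ℝ) + ((h : ℝ) + ((Nat.log 2 w.length : ℝ) + 1))) *
        ((h : ℝ) + ((Nat.log 2 w.length : ℝ) + 1)) ^ 2 ≤ C * ((w.length : ℝ) + 1) ^ ((3 : ℝ) / 2) ∧
    ((s : ℝ) + ((h : ℝ) + ((Nat.log 2 w.length : ℝ) + 1))) * ((h : ℝ) + 1) *
        ((h : ℝ) + ((Nat.log 2 w.length : ℝ) + 1)) ≤ C * ((w.length : ℝ) + 1) ^ ((1 : ℝ) / 2) ∧
    (a : ℝ) * ((h : ℝ) + ((Nat.log 2 w.length : ℝ) + 1)) ^ 2 ≤ C * ((w.length : ℝ) + 1) ∧
    (k + 1) * (z + s + (h + (Nat.log 2 w.length + 1))) ≤ c * (w.length + 1)

end Pool.Agent.Helper81.Sus2
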