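import Pool.Agent.Helper81.Sus3.Goals
import Pool.Agent.Helper81.Sus2.SIL

/-!
# Silent events keep the memory
-/

namespace Pool.Agent.Helper81.Sus3

open Pool.Agent.Helper65.LinSpace Pool.Agent.Helper78.Mpc Pool.Agent.Helper28.Ram
open Pool.Agent.Helper81.Sus2 Pool.Agent.Helper28.Sus Finset
open Pool.Agent.Helper81.Sus2H83 (capN_idem capN_one wW_silent)

/-- All contents are truncated. -/
theorem exists_cap (P : Prm) (τ Y c p d p' a t x : ℕ) :
    ∃ v, (vf P τ Y c p d p' a t).2 x = capN P.Z v := by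
  cases t with
  | zero => exact ⟨_, rfl⟩
  | succ t => exact ⟨_, rfl⟩

theorem sil : SIL_stmt := by
  intro P τ Y c p d p' a
  constructor
  · intro t x f hf
    obtain ⟨v, hv⟩ := exists_cap P τ Y c p d p' a t x
    rw [wW_silent P x f _ hf, hv, capN_idem]
  · intro t ht
    have h1 : (vf P τ Y c p d p' a (t + 1)).1 = vN P τ Y d p' a (vf P τ Y c p d p' a t).1
        ((vf P τ Y c p d p' a t).2 (P.wA τ a (vf P τ Y c p d p' a t).1)) := rfl
    rw [h1, ht]
    exact capN_one P.V

end Pool.Agent.Helper81.Sus3
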