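import Pool.Agent.Helper81.Sus3.Goals
import Pool.Agent.Helper81.Sus2.SND

/-!
# SND: soundness of the machine on numbers for a window
-/

namespace Pool.Agent.Helper81.Sus3.SNDx

open Pool.Agent.Helper65.LinSpace Pool.Agent.Helper78.Mpc Pool.Agent.Helper28.Ram
  Pool.Agent.Helper81.Sus2 Pool.Agent.Helper28.Sus Finset Pool.Agent.Helper81.Sus2H94

section

variable {A : NBM} {w y : List Bool} {P : Prm}

variable {τ Y c p d p' a : ℕ} {f : List Bool × (List Bool → List Bool)}

theorem vf_succ (t : ℕ) : vf P τ Y c p d p' a (t + 1) =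
    (vN P τ Y d p' a (vf P τ Y c p d p' a t).1 ((vf P τ Y c p d p' a t).2 (P.wA τ a (vf P τ Y c p d p' a t).1)),
      fun x => P.wW x (vN P τ Y d p' a (vf P τ Y c p d p' a t).1
        ((vf P τ Y c p d p' a t).2 (P.wA τ a (vf P τ Y c p d p' a t).1))) ((vf P τ Y c p d p' a t).2 x)) := rfl

/-- The events `0` and `1` are kept. -/
theorem vN_small {Q v : ℕ} (hQ : Q ≤ 1) : vN P τ Y d p' a Q v = Q := by
  unfold vN
  rw [lt01, if_neg (by omega), ifz_zero]
  refine capN_of_lt (lt_of_le_of_lt hQ ?_)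
  exact Nat.one_lt_two_pow (by omega)

theorem keep_small {t : ℕ} (h : (vf P τ Y c p d p' a t).1 ≤ 1) (s : ℕ) :
    (vf P τ Y c p d p' a (t + s)).1 = (vf P τ Y c p d p' a t).1 := by
  induction s with
  | zero => rfl
  | succ s ih =>
    rw [← add_assoc, vf_succ]
    show vN P τ Y d p' a _ _ = _
    rw [vN_small (by rw [ih]; exact h), ih]

theorem inv_zero (H : Cod A w y P) (hc : c ≠ 0) (hR : Rep A w y P c f) (hp : p ≤ P.u) :
    Inv P (vf P τ Y c p d p' a 0).1 (vf P τ Y c p d p' a 0).2 0 (ptc A Y (f, p) 0) := by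
  show Inv P (capN P.V (P.enc (P.cq c) p 0)) (P.cm c) 0 (f, p)
  rcases capN_cases P.V (P.enc (P.cq c) p 0) with h | h
  · exact Or.inl h
  · right
    have hcm := cm_spec H hc hR
    rcases hR with ⟨h0, _⟩ | ⟨_, h1, h2, _, _⟩
    · exact absurd h0 hc
    · refine ⟨?_, h2, hp, fun i hi => hcm i hi⟩
      rw [h, ← h1]

theorem inv_step (H : Cod A w y P) (hSV : P.S ≤ P.V) {t : ℕ} (ht : t < τ)
    (hI : Inv P (vf P τ Y c p d p' a t).1 (vf P τ Y c p d p' a t).2 t (ptc A Y (f, p) t)) :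
    Inv P (vf P τ Y c p d p' a (t + 1)).1 (vf P τ Y c p d p' a (t + 1)).2 (t + 1)
      (ptc A Y (f, p) (t + 1)) := by
  rcases hI with h0 | ⟨he, hq, hp, hm⟩
  · left
    rw [keep_small (by rw [h0]; exact Nat.zero_le _) 1, h0]
  rw [vf_succ]
  set e := (vf P τ Y c p d p' a t).1 with hedef
  set m := (vf P τ Y c p d p' a t).2 with hmdef
  set s := ptc A Y (f, p) t with hsdef
  have hnq := num_lt_pow hq
  have hdq : P.dq e = num s.1.1 := by rw [he, dq_enc P hnq]
  have hdp : P.dp e = s.2 := by rw [he, dp_enc P hnq hp]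
  have hdt : P.dt e = t := by rw [he, dt_enc P hnq hp]
  have hlt : lt01 1 e = 1 := by rw [he]; exact lt_enc P _ _ _
  have heq : eq01 (P.dt e) τ = 0 := by
    rw [hdt, eq01, if_neg (by omega)]
  -- the register which is read
  have hA : P.wA τ a e = capN P.V (P.fA (num s.1.1)) := by
    unfold Prm.wA
    rw [hlt, ifz_ne one_ne_zero, heq, ifz_zero, hdq]
  set v := m (P.wA τ a e) with hv
  have hN : vN P τ Y d p' a e v = capN P.V
      (ifz (P.fA (num s.1.1) * P.fN (num s.1.1) (dig 2 Y s.2) v) 0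
        (ifz (P.fK (num s.1.1) * eq01 s.2 P.u)
          (P.enc (P.fN (num s.1.1) (dig 2 Y s.2) v) (s.2 + P.fK (num s.1.1)) (t + 1)) 0)) := by
    unfold vN
    rw [hlt, ifz_ne one_ne_zero, heq, ifz_zero, hdq, hdp, hdt]
  show Inv P (vN P τ Y d p' a e v) (fun x => P.wW x (vN P τ Y d p' a e v) (m x)) (t + 1) _
  by_cases hz : vN P τ Y d p' a e v = 0
  · exact Or.inl hz
  right
  rw [hN] at hz
  have hz1 := capN_ne hz
  rw [hz1] at hz
  have h1 : P.fA (num s.1.1) * P.fN (num s.1.1) (dig 2 Y s.2) v ≠ 0 := by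
    intro h
    rw [h, ifz_zero] at hz
    exact hz rfl
  rw [ifz_ne h1] at hz
  have h2 : P.fK (num s.1.1) * eq01 s.2 P.u = 0 := by
    by_contra h
    rw [ifz_ne h] at hz
    exact hz rfl
  have hfA : P.fA (num s.1.1) ≠ 0 := left_ne_zero_of_mul h1
  have hfN : P.fN (num s.1.1) (dig 2 Y s.2) v ≠ 0 := right_ne_zero_of_mul h1
  rw [H.hA _ hq] at hfA
  have hal : (A.addr s.1.1).length ≤ P.S := by
    by_contra h
    rw [if_neg h] at hfA
    exact hfA rfl
  have hA2 : P.wA τ a e = num (A.addr s.1.1) := by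
    rw [hA, H.hA _ hq, if_pos hal, capN_mono hSV (num_lt_pow hal)]
  have hv0 : v ≠ 0 := by
    intro h
    apply hfN
    unfold Prm.fN
    rw [h, ifz_zero]
  have hv1 : v = num (s.1.2 (A.addr s.1.1)) ∧ (s.1.2 (A.addr s.1.1)).length ≤ P.Z := by
    rcases hm _ hal with h | h
    · rw [hv, hA2] at hv0
      exact absurd h hv0
    · rw [hv, hA2]
      exact h
  have hfN2 : P.fN (num s.1.1) (dig 2 Y s.2) v =
      if (A.next (sd s.1.1 ++ (A.ask s.1.1 && decide (dig 2 Y s.2 = 1)) ::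
        s.1.2 (A.addr s.1.1))).length ≤ P.S then
      num (A.next (sd s.1.1 ++ (A.ask s.1.1 && decide (dig 2 Y s.2 = 1)) ::
        s.1.2 (A.addr s.1.1))) else 0 := by
    rw [hv1.1]
    conv_lhs => rw [digit Y s.2]
    exact H.hN _ _ _ hq hv1.2
  have hs' : ptc A Y (f, p) (t + 1) = (A.step (decide (dig 2 Y s.2 = 1)) s.1,
      s.2 + (A.ask s.1.1).toNat) := rfl
  have hq' : (ptc A Y (f, p) (t + 1)).1.1 = A.next (sd s.1.1 ++
      (A.ask s.1.1 && decide (dig 2 Y s.2 = 1)) :: s.1.2 (A.addr s.1.1)) := rfl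
  rw [← hq'] at hfN2
  have hql : (ptc A Y (f, p) (t + 1)).1.1.length ≤ P.S := by
    by_contra h
    rw [if_neg h] at hfN2
    exact hfN hfN2
  rw [if_pos hql] at hfN2
  have hp' : (ptc A Y (f, p) (t + 1)).2 = s.2 + P.fK (num s.1.1) := by
    rw [hs', H.hK _ hq]
  have hval : vN P τ Y d p' a e v =
      P.enc (num (ptc A Y (f, p) (t + 1)).1.1) (ptc A Y (f, p) (t + 1)).2 (t + 1) := by
    rw [hN, hz1, ifz_ne h1, h2, ifz_zero, hfN2, hp']
  refine ⟨hval, hql, ?_, ?_⟩
  · rw [H.hK _ hq] at h2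
    show s.2 + (A.ask s.1.1).toNat ≤ P.u
    rcases Bool.eq_false_or_eq_true (A.ask s.1.1) with h | h
    · rw [h] at h2 ⊢
      have h3 : eq01 s.2 P.u = 0 := by simpa using h2
      have h4 : s.2 ≠ P.u := by
        intro h5
        rw [eq01, if_pos h5] at h3
        exact one_ne_zero h3
      simp only [Bool.toNat_true]
      omega
    · rw [h]
      simpa using hp
  · intro i hi
    have hM : (ptc A Y (f, p) (t + 1)).1.2 i = A.upd (ptc A Y (f, p) (t + 1)).1.1 i (s.1.2 i) := rfl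
    rw [hM]
    refine mem_spec H _ i _ hql hi _ _ ?_ ?_ (hm i hi)
    · rw [hval]
      exact lt_enc P _ _ _
    · rw [hval]
      exact dq_enc P (num_lt_pow hql)

theorem inv_all (H : Cod A w y P) (hSV : P.S ≤ P.V) (hc : c ≠ 0) (hR : Rep A w y P c f)
    (hp : p ≤ P.u) :
    ∀ t ≤ τ, Inv P (vf P τ Y c p d p' a t).1 (vf P τ Y c p d p' a t).2 t (ptc A Y (f, p) t) := by
  intro t
  induction t with
  | zero => exact fun _ => inv_zero H hc hR hp
  | succ t ih => exact fun ht => inv_step H hSV (by omega) (ih (by omega))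

end

theorem snd : SND_stmt := by
  intro A w y P H hSV c p d p' a τ Y T f hc hR hp0 ha hT
  have hI := inv_all (Y := Y) (d := d) (p' := p') (a := a) (τ := τ) H hSV hc hR hp0
  have hne : ∀ t ≤ τ, (vf P τ Y c p d p' a t).1 ≠ 1 := by
    intro t ht h1
    rcases hI t ht with h | ⟨h, _⟩
    · omega
    · have := two_le_enc P (num (ptc A Y (f, p) t).1.1) (ptc A Y (f, p) t).2 t
      omega
  have hTτ : τ < T := by
    by_contra h
    exact hne T (by omega) hT
  rcases hI τ le_rfl with h0 | ⟨he, hq, hp, hm⟩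
  · exfalso
    have h1 := keep_small (P := P) (τ := τ) (Y := Y) (c := c) (p := p) (d := d) (p' := p')
      (a := a) (t := τ) (by rw [h0]; exact Nat.zero_le _) (T - τ)
    rw [show τ + (T - τ) = T by omega, hT, h0] at h1
    exact one_ne_zero h1
  set e := (vf P τ Y c p d p' a τ).1 with hedef
  set m := (vf P τ Y c p d p' a τ).2 with hmdef
  set s := ptc A Y (f, p) τ with hsdef
  have hnq := num_lt_pow hq
  have hdq : P.dq e = num s.1.1 := by rw [he, dq_enc P hnq]
  have hdp : P.dp e = s.2 := by rw [he, dp_enc P hnq hp]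
  have hdt : P.dt e = τ := by rw [he, dt_enc P hnq hp]
  have hlt : lt01 1 e = 1 := by rw [he]; exact lt_enc P _ _ _
  have heq : eq01 (P.dt e) τ = 1 := by rw [hdt, eq01, if_pos rfl]
  have hA : P.wA τ a e = a := by
    unfold Prm.wA
    rw [hlt, ifz_ne one_ne_zero, heq, ifz_ne one_ne_zero, capN_mono hSV ha]
  have hN : (vf P τ Y c p d p' a (τ + 1)).1 = capN P.V (vF P d p' a e (m a)) := by
    rw [vf_succ]
    show vN P τ Y d p' a e (m (P.wA τ a e)) = _
    rw [hA]
    unfold vN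
    rw [hlt, ifz_ne one_ne_zero, heq, ifz_ne one_ne_zero]
  have heq01 : ∀ x z : ℕ, eq01 x z ≤ 1 := by
    intro x z
    unfold eq01
    split_ifs <;> omega
  have hmul : ∀ x z : ℕ, x ≤ 1 → z ≤ 1 → x * z ≤ 1 := by
    intro x z hx hz
    exact (Nat.mul_le_mul hx hz).trans (by omega)
  have hif : ∀ b x z : ℕ, x ≤ 1 → z ≤ 1 → ifz b x z ≤ 1 := by
    intro b x z hx hz
    unfold ifz
    split_ifs <;> assumption
  have hF : vF P d p' a e (m a) ≤ 1 := by
    unfold vF
    exact hif _ _ _ (accN_le _) (hmul _ _ (heq01 _ _) (hmul _ _ (hif _ _ _ (heq01 _ _) le_rfl)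
      (hif _ _ _ le_rfl (heq01 _ _))))
  have hN1 : (vf P τ Y c p d p' a (τ + 1)).1 = vF P d p' a e (m a) := by
    rw [hN]
    exact capN_of_lt (lt_of_le_of_lt hF (Nat.one_lt_two_pow (by omega)))
  have hone : vF P d p' a e (m a) = 1 := by
    have h1 := keep_small (P := P) (τ := τ) (Y := Y) (c := c) (p := p) (d := d) (p' := p')
      (a := a) (t := τ + 1) (by rw [hN1]; exact hF) (T - (τ + 1))
    rw [show τ + 1 + (T - (τ + 1)) = T by omega, hT, hN1] at h1
    exact h1.symm
  unfold vF at hone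
  rw [hdq, hdp] at hone
  refine ⟨hq, hp, ?_, ?_⟩
  · rintro rfl
    rw [ifz_zero] at hone
    exact (accN_num _).1 hone
  · intro hd
    rw [ifz_ne hd] at hone
    have h0 : eq01 (num s.1.1) (P.cq d) * (ifz (lt01 P.u p') (eq01 s.2 p') 1 *
        ifz a 1 (eq01 (m a) (P.cl d a))) ≠ 0 := by
      rw [hone]
      exact one_ne_zero
    have h1 := left_ne_zero_of_mul h0
    have h3 := left_ne_zero_of_mul (right_ne_zero_of_mul h0)
    have h2 := right_ne_zero_of_mul (right_ne_zero_of_mul h0)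
    refine ⟨?_, ?_, ?_⟩
    · by_contra h
      rw [eq01, if_neg h] at h1
      exact h1 rfl
    · intro hp'
      by_contra h
      rw [lt01, if_neg (by omega), ifz_zero, eq01, if_neg h] at h3
      exact h3 rfl
    · intro i hi
      have ha0 : a ≠ 0 := by
        rw [← hi]
        exact (num_pos i).ne'
      rw [ifz_ne ha0] at h2
      have h4 : m a = P.cl d a := by
        by_contra h
        rw [eq01, if_neg h] at h2
        exact h2 rfl
      have hil : i.length ≤ P.S := by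
        apply length_le_of_num_lt
        rw [hi]
        exact ha
      rcases hm i hil with h | h
      · left
        rw [hi] at h
        rw [← h4]
        exact h
      · right
        rw [← h4, ← hi]
        exact h.1

end Pool.Agent.Helper81.Sus3.SNDx
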