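import Pool.Agent.Helper81.Sus3.Fin
import Pool.Agent.Helper81.Sus3.SIL
import Pool.Agent.Helper81.Sus3.SNDx
import Pool.Agent.Helper81.Sus2.Final
import Pool.Agent.Helper22.Sus3.PAR
import Pool.Agent.Helper33.Sus3.EDC
import Pool.Agent.Helper56.Sus3.LSE
import Pool.Agent.Helper58.Sus3.EDS
import Pool.Agent.Helper61.Sus3.TIM
import Pool.Agent.Helper81.Gen4.Main
import Pool.Agent.Helper79.Sus3.PAH
import Pool.Agent.Helper8.Sus3.GRD
import Pool.Agent.Helper85.Sus3.CMP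
import Pool.Agent.Helper9.Sus3.LSW

/-!
# Sustained complexity of the memory, any time: all parts
-/

namespace Pool.Agent.Helper81.Sus3

open Pool.Agent.Helper65.LinSpace Pool.Agent.Helper28.Ram Pool.Agent.Helper81.Sus2
open Pool.Agent.Helper81.Gen4 (Q)

theorem parts : Parts where
  cod := Pool.Agent.Helper81.Sus2H88.cod
  sil := sil
  dec := dec
  eds := Pool.Agent.Helper58.Sus3.eds SNDx.snd Pool.Agent.Helper8.Sus3.grd
  rcs := Pool.Agent.Helper81.Sus2H81.rcs
  rcc := Pool.Agent.Helper81.Sus2H85.rcc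
  edc := Pool.Agent.Helper33.Sus3.edc Pool.Agent.Helper85.Sus3.cmp Pool.Agent.Helper8.Sus3.grd
  tim := Pool.Agent.Helper61.Sus3.tim
  lsw := Pool.Agent.Helper9.Sus3.lsw
  lse := Pool.Agent.Helper56.Sus3.lse
  prm := Pool.Agent.Helper81.Sus2H88.prm
  pah := Pool.Agent.Helper79.Sus3.pah Pool.Agent.Helper22.Sus3.par

/-- **Sustained memory of nondeterministic machines.** -/
theorem sustained3 (c : ℕ) (hc : 0 < c) :
    (∀ (A : NBM) (E : Decomp) (L : Set (List Bool)) (C : ℝ),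
      (∀ w, Q (c * w.length) (fun v => ∃ g r, A.AcceptsAt w v g r) → w ∈ L) →
      (∀ w ∈ L, Q (c * w.length) (A.Good E c C w)) → DLINSPACE L) ∧
    ∃ L : Set (List Bool), DLINSPACE L ∧
      ∀ (A : NBM) (E : Decomp) (C : ℝ), ∃ c' : ℝ, ∀ (n : ℕ) (α : List Bool),
        ∀ M, M = L ∨ M = Lᶜ →
          ({w : List Bool | w.length = n ∧
            (Q (c * n) (fun v => ∃ g r, A.AcceptsAt w (α ++ v) g r) → w ∈ M) ∧
            (w ∈ M → Q (c * n) fun v => A.Good E c C w (α ++ v))}.ncard : ℝ) ≤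
          2 ^ n / 2 + c' * ((α.length : ℝ) + 1) * 2 ^ (((n : ℝ) + α.length / c) / 2) :=
  ⟨sus_lin Pool.Agent.Helper81.Tok3.theSim parts c,
    sus_main Pool.Agent.Helper81.Tok3.theSim parts c hc⟩

end Pool.Agent.Helper81.Sus3
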