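import Pool.Agent.Helper81.Sus3.Goals
import Pool.Agent.Helper81.Sus2.Fin
import Pool.Agent.Helper81.Gen4.Main

/-!
# Sustained complexity of the memory, any time: the final theorem from its parts
-/

namespace Pool.Agent.Helper81.Sus3

open Pool.Agent.Helper65.LinSpace Pool.Agent.Helper78.Mpc Pool.Agent.Helper28.Ram Finset Filter
open Pool.Agent.Helper28.Long (ZL ev_par)
open Pool.Agent.Helper81.Tok3 (gH CH Par LSM Sim)
open Pool.Agent.Helper28.Sus (gf chs rc mgf macro_sound macro_complete lt_ne)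
open Pool.Agent.Helper81.Sus2
open Pool.Agent.Helper81.Gen4 (Q q_main q_lin)

/-! ### The machine -/

/-- The machine on numbers with the parameters of the simulation. -/
def mach (P : Prm) (g h c p d p' Y τ a : ℕ) : Pool.Agent.Helper81.Tok3.Mach where
  σ := P.V + 1
  a := P.Z + 1
  b := g / (P.V + 1)
  G := g
  h := h
  A := P.wA τ a
  N := vN P τ Y d p' a
  Q := P.wQ
  W := P.wW
  q0 := v0 P c p
  M0 := P.cm c

theorem ok_mach {n h : ℕ} {P : Prm} (hP : Adm n h P) (c p d p' Y τ a : ℕ) :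
    (mach P (gH n h) h c p d p' Y τ a).Ok := by
  refine ⟨Nat.succ_pos _, Nat.div_pos hP.h1 (Nat.succ_pos _), ?_, ?_, ?_, ?_, ?_⟩
  · intro q
    exact capN_lt _ _
  · intro q v
    exact capN_lt _ _
  · intro q v f
    exact capN_lt _ _
  · exact capN_lt _ _
  · intro a
    exact capN_lt _ _

theorem par_mach {n h : ℕ} {P : Prm} (hP : Adm n h P) (c p d p' Y τ a : ℕ) :
    Par n (mach P (gH n h) h c p d p' Y τ a) :=
  ⟨hP.h1, hP.h2, rfl, rfl, hP.h3⟩

/-- The simulation. -/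
noncomputable def FF (Q : Sim) (n h : ℕ) (P : Prm) (c p d p' Y τ a : ℕ) : ℕ :=
  Q.sim n (mach P (gH n h) h c p d p' Y τ a)

theorem FF_eq (Q : Sim) {n h : ℕ} {P : Prm} (hP : Adm n h P) (c p d p' Y τ a : ℕ) :
    FF Q n h P c p d p' Y τ a = (mgf (P.wA τ a) (vN P τ Y d p' a) P.wQ P.wW h (v0 P c p) (P.cm c)
      (gH n h * (gH n h * (gH n h / (P.V + 1))))).1 :=
  Q.eq _ _ (ok_mach hP _ _ _ _ _ _ _) (par_mach hP _ _ _ _ _ _ _)

theorem FF_sound (Q : Sim) (hSIL : SIL_stmt) {n h : ℕ} {P : Prm} (hP : Adm n h P)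
    {c p d p' Y τ a : ℕ} (hF : FF Q n h P c p d p' Y τ a = 1) :
    ∃ T, (vf P τ Y c p d p' a T).1 = 1 := by
  rw [FF_eq Q hP] at hF
  obtain ⟨t, ht⟩ := macro_sound (A := P.wA τ a) (N := vN P τ Y d p' a) (W := P.wW) (Q := P.wQ)
    (q := v0 P c p) (M := P.cm c) (hSIL P τ Y c p d p' a).1 h
    (gH n h * (gH n h * (gH n h / (P.V + 1))))
  rw [ht] at hF
  exact ⟨t, hF⟩

theorem FF_complete (Q : Sim) (hSIL : SIL_stmt) {n h : ℕ} {P : Prm} (hP : Adm n h P)
    {c p d p' Y τ a x : ℕ} (h1 : ∀ T, τ < T → (vf P τ Y c p d p' a T).1 = 1)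
    (h2 : τ ≤ 2 ^ h * (x + 1))
    (h3 : chs (P.wA τ a) (vN P τ Y d p' a) P.wQ P.wW (v0 P c p) (P.cm c) (τ + 1) ≤ x)
    (h4 : 2 * (x + 1) + 1 ≤ gH n h * (gH n h * (gH n h / (P.V + 1)))) :
    FF Q n h P c p d p' Y τ a = 1 := by
  rw [FF_eq Q hP]
  have hpos : 1 ≤ 2 ^ h := Nat.one_le_two_pow
  refine macro_complete (A := P.wA τ a) (N := vN P τ Y d p' a) (W := P.wW) (Q := P.wQ)
    (q := v0 P c p) (M := P.cm c) (hSIL P τ Y c p d p' a).1 (acc := fun q => q = 1)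
    (fun t ht => (hSIL P τ Y c p d p' a).2 t ht) (h := h) (r := τ + 1) (x := x + 1)
    (h1 (τ + 1) (Nat.lt_succ_self τ)) (h3.trans (Nat.le_succ x)) ?_ _ h4
  calc τ + 1 ≤ 2 ^ h * (x + 1) + 2 ^ h := by omega
    _ = 2 ^ h * (x + 1 + 1) := by ring

/-! ### The simulation of the whole computation -/

/-- The simulation: not `0` if the machine with the code `e` accepts, with the bounds coded by `T`. -/
noncomputable def acc (Q : Sim) (c e x y T : ℕ) : ℕ :=
  gT c (Nat.log 2 x) T * (lt01 0 ((prm c e x y T).cq 1) *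
    rc (edge (prm c e x y T) (FF Q (Nat.log 2 x) (hT c (Nat.log 2 x) T) (prm c e x y T)))
      (prm c e x y T).cz (kT c (Nat.log 2 x) T) 1 0)

theorem LS.acc (Q : Sim) (hLSW : LSW_stmt) (hLSE : LSE_stmt) (hPRM : PRM_stmt) (c : ℕ) :
    LS (fun z : ℕ × ℕ × ℕ × ℕ => acc Q c z.1 z.2.1 z.2.2.1 z.2.2.2) := by
  have he : LS (fun z : ℕ × ℕ × ℕ × ℕ => z.1) := by fun_prop
  have hx : LS (fun z : ℕ × ℕ × ℕ × ℕ => z.2.1) := by fun_prop
  have hy : LS (fun z : ℕ × ℕ × ℕ × ℕ => z.2.2.1) := by fun_prop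
  have hT' : LS (fun z : ℕ × ℕ × ℕ × ℕ => z.2.2.2) := by fun_prop
  have hn : LS (fun z : ℕ × ℕ × ℕ × ℕ => Nat.log 2 z.2.1) := by fun_prop
  obtain ⟨h1, h2, h3⟩ := hPRM.1 _ c _ _ _ _ he hx hy hT'
  have hLk : LS (fun z : ℕ × ℕ × ℕ × ℕ => kT c (Nat.log 2 z.2.1) z.2.2.2) := by
    unfold kT
    exact LS.mul h2 (LS.dig (LS_bs c hn) hT' (LS.const 3))
  have hC : LS (fun z : ℕ × ℕ × ℕ × ℕ => CS c z.2.1) := h1.hC
  -- the simulation
  have hF : LS (fun z : (ℕ × ℕ × ℕ × ℕ) × ℕ × ℕ × ℕ × ℕ × ℕ × ℕ × ℕ =>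
      FF Q (Nat.log 2 z.1.2.1) (hT c (Nat.log 2 z.1.2.1) z.1.2.2.2)
        (prm c z.1.1 z.1.2.1 z.1.2.2.1 z.1.2.2.2) z.2.1 z.2.2.1 z.2.2.2.1 z.2.2.2.2.1
        z.2.2.2.2.2.1 z.2.2.2.2.2.2.1 z.2.2.2.2.2.2.2) := by
    have he' : LS (fun z : (ℕ × ℕ × ℕ × ℕ) × ℕ × ℕ × ℕ × ℕ × ℕ × ℕ × ℕ => z.1.1) := by fun_prop
    have hx' : LS (fun z : (ℕ × ℕ × ℕ × ℕ) × ℕ × ℕ × ℕ × ℕ × ℕ × ℕ × ℕ => z.1.2.1) := by
      fun_prop
    have hy' : LS (fun z : (ℕ × ℕ × ℕ × ℕ) × ℕ × ℕ × ℕ × ℕ × ℕ × ℕ × ℕ => z.1.2.2.1) := by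
      fun_prop
    have hT' : LS (fun z : (ℕ × ℕ × ℕ × ℕ) × ℕ × ℕ × ℕ × ℕ × ℕ × ℕ × ℕ => z.1.2.2.2) := by
      fun_prop
    obtain ⟨g1, g2, g3⟩ := hPRM.1 _ c _ _ _ _ he' hx' hy' hT'
    obtain ⟨w1, w2, w3, w4, w5, w6, _⟩ := hLSW _ _ _
      (fun z : (ℕ × ℕ × ℕ × ℕ) × ℕ × ℕ × ℕ × ℕ × ℕ × ℕ × ℕ => z.2.1)
      (fun z => z.2.2.1) (fun z => z.2.2.2.1) (fun z => z.2.2.2.2.1) (fun z => z.2.2.2.2.2.1)
      (fun z => z.2.2.2.2.2.2.1) (fun z => z.2.2.2.2.2.2.2)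
      g1 (by fun_prop) (by fun_prop) (by fun_prop) (by fun_prop) (by fun_prop) (by fun_prop)
      (by fun_prop)
    have hLh' : LS (fun z : (ℕ × ℕ × ℕ × ℕ) × ℕ × ℕ × ℕ × ℕ × ℕ × ℕ × ℕ =>
        hT c (Nat.log 2 z.1.2.1) z.1.2.2.2) := by
      unfold hT
      exact LS.mul g2 (LS.dig (LS_bs c (LS.log2 hx')) hT' (LS.const 2))
    have hCH : LS (fun z : (ℕ × ℕ × ℕ × ℕ) × ℕ × ℕ × ℕ × ℕ × ℕ × ℕ × ℕ => CH z.1.2.1) := by
      unfold CH
      exact (LS.add hx' (LS.const 2)).pow_const 40000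
    refine Q.ls hx' ?_ (fun z => par_mach (adm_prm hPRM _ _ _ _ _) _ _ _ _ _ _ _)
    exact ⟨LS.add g1.V (LS.const 1), LS.add g1.Z (LS.const 1),
      LS.div g3 (LS.add g1.V (LS.const 1)), g3, hLh', w1, w2, w3, w4, w5, w6, hCH,
      fun z => ok_mach (adm_prm hPRM _ _ _ _ _) _ _ _ _ _ _ _,
      fun z => Q.nv _ _ (ok_mach (adm_prm hPRM _ _ _ _ _) _ _ _ _ _ _ _)
        (par_mach (adm_prm hPRM _ _ _ _ _) _ _ _ _ _ _ _),
      fun z => Q.sv _ _ (ok_mach (adm_prm hPRM _ _ _ _ _) _ _ _ _ _ _ _)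
        (par_mach (adm_prm hPRM _ _ _ _ _) _ _ _ _ _ _ _)⟩
  have hE := hLSE _ _ _ h1 (fun z : ℕ × ℕ × ℕ × ℕ => FF Q (Nat.log 2 z.2.1)
    (hT c (Nat.log 2 z.2.1) z.2.2.2) (prm c z.1 z.2.1 z.2.2.1 z.2.2.2)) hF
  obtain ⟨_, _, _, _, _, _, w7⟩ := hLSW _ _ _
      (fun z : ℕ × ℕ × ℕ × ℕ => 0) (fun z => 0) (fun z => 0) (fun z => 0) (fun z => 0)
      (fun z => 0) (fun z => 0)
      h1 (by fun_prop) (by fun_prop) (by fun_prop) (by fun_prop) (by fun_prop) (by fun_prop)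
      (by fun_prop)
  have hq : LS (fun z : ℕ × ℕ × ℕ × ℕ => (prm c z.1 z.2.1 z.2.2.1 z.2.2.2).cq 1) := by
    refine LS.congr (LS.capN h1.S h1.st) fun z => ?_
    unfold Prm.cq
    rw [eq01, if_pos rfl, ifz_ne one_ne_zero]
  exact LS.mul h2 (LS.mul (LS.lt01 (LS.const 0) hq)
    (Pool.Agent.Helper28.Sus.LS.rc hE w7 hLk (LS.const 1) (LS.const 0) hC (fun z => hPRM.2.1 c _ _ _ _)
      (fun z => by omega) (fun z => by omega)))

/-! ### Soundness and completeness -/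

theorem sound (Q : Sim) (hSIL : SIL_stmt) (hEDS : EDS_stmt) (hRCS : RCS_stmt)
    (hPRM : PRM_stmt) {A : NBM} {w y : List Bool} {c e T : ℕ}
    (hP : Cod A w y (prm c e (num w) (num y) T)) (h : acc Q c e (num w) (num y) T ≠ 0) :
    ∃ g r, A.AcceptsAt w y g r := by
  unfold acc at h
  have h1 := right_ne_zero_of_mul h
  have h2 := left_ne_zero_of_mul h1
  have h3 := right_ne_zero_of_mul h1
  have h4 : (prm c e (num w) (num y) T).cq 1 ≠ 0 := lt_ne.1 h2
  have h5 := (hPRM.2.2 c e (num w) (num y) T).2.2.2.1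
  obtain ⟨g, t, ht⟩ := hRCS A (Rep A w y (prm c e (num w) (num y) T)) _ _
    (hEDS A w y _ hP h5 (FF Q _ _ _) fun c' p d p' Y τ a _ _ hF =>
      FF_sound Q hSIL (adm_prm hPRM c e (num w) (num y) T) hF) _ _ _ _ h3
    (rep_start hP h4)
  rcases ht with ⟨_, ht⟩ | ⟨h6, _⟩
  · exact ⟨g, t, ht⟩
  · exact absurd rfl h6

/-! ### The first accepting time -/

theorem guesses_mono {A : NBM} {w y : List Bool} {g : ℕ → Bool} {t t' t'' : ℕ} (h : t' ≤ t'') :
    A.guesses w y g t t' ≤ A.guesses w y g t t'' := by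
  unfold NBM.guesses
  refine Set.ncard_le_ncard (fun i hi => ⟨hi.1, hi.2.1.trans_le h, hi.2.2⟩) ?_
  exact (Set.finite_lt_nat t'').subset fun j hj => hj.2.1

theorem guesses_mono' {A : NBM} {w y : List Bool} {g : ℕ → Bool} {t t' u u' : ℕ} (h : t' ≤ u')
    (h' : u ≤ t) : A.guesses w y g t t' ≤ A.guesses w y g u u' := by
  unfold NBM.guesses
  refine Set.ncard_le_ncard (fun i hi => ⟨h'.trans hi.1, hi.2.1.trans_le h, hi.2.2⟩) ?_
  exact (Set.finite_lt_nat u').subset fun j hj => hj.2.1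

/-- The parts before the first accepting time `r₀`: the number of parts is `K'`. -/
theorem exists_cut {A : NBM} {w y : List Bool} {g : ℕ → Bool} {r K : ℕ} {τ : ℕ → ℕ}
    (hacc : A.AcceptsAt w y g r) (hτ0 : τ 0 = 0) (hτK : τ K = r) (hK0 : 0 < K)
    (_hmono : ∀ i < K, τ i ≤ τ (i + 1)) :
    ∃ r₀ K', A.AcceptsAt w y g r₀ ∧ (∀ r' < r₀, ¬A.AcceptsAt w y g r') ∧ r₀ ≤ r ∧ 0 < K' ∧
      K' ≤ K ∧ (∀ i < K', τ i ≤ r₀) ∧ r₀ ≤ τ K' := by
  classical
  have hex : ∃ r', A.AcceptsAt w y g r' := ⟨r, hacc⟩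
  have hr := Nat.find_min' hex hacc
  have hex2 : ∃ i, r ≤ r ∧ i < K ∧ Nat.find hex ≤ τ (i + 1) :=
    ⟨K - 1, le_rfl, by omega, by rw [Nat.sub_add_cancel hK0, hτK]; exact hr⟩
  have h1 := Nat.find_spec hex2
  have h2 : ∀ i < Nat.find hex2, τ (i + 1) < Nat.find hex := by
    intro i hi
    have h3 := Nat.find_min hex2 hi
    push Not at h3
    exact h3 le_rfl (by omega)
  refine ⟨Nat.find hex, Nat.find hex2 + 1, Nat.find_spec hex, fun r' hr' => Nat.find_min hex hr',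
    hr, Nat.succ_pos _, h1.2.1, fun i hi => ?_, h1.2.2⟩
  rcases Nat.eq_zero_or_pos i with h3 | h3
  · rw [h3, hτ0]
    exact Nat.zero_le _
  · have h4 := h2 (i - 1) (by omega)
    rw [Nat.sub_add_cancel h3] at h4
    exact h4.le

/-! ### Completeness -/

theorem complete (Q : Sim) (hSIL : SIL_stmt) (hDEC : DEC_stmt) (hEDC : EDC_stmt)
    (hTIM : TIM_stmt) (hRCC : RCC_stmt) (hPRM : PRM_stmt) {A : NBM} {E : Decomp}
    {w y : List Bool} {c e : ℕ}
    (hCod : ∀ T, Cod A w y (prm c e (num w) (num y) T))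
    (hCodE : ∀ T, CodE E (prm c e (num w) (num y) T))
    {g : ℕ → Bool} {r s a x h h' z k K : ℕ} {τ : ℕ → ℕ} {D : ℕ → List Bool}
    (hacc : A.AcceptsAt w y g r) (hmin : ∀ r' < r, ¬A.AcceptsAt w y g r')
    (hfit : A.Fits w y g r s a) (hτ0 : τ 0 = 0) (hτK : τ K = r) (hK0 : 0 < K) (hK : K ≤ 2 ^ k)
    (hpart : ∀ i < K, τ i ≤ τ (i + 1) ∧ A.guesses w y g (τ i) (τ (i + 1)) ≤ c * w.length ∧
      (∀ t, τ i ≤ t → t < τ (i + 1) →
        A.Known E w y g a (τ i) (D i) t (A.addr (A.conf w y g t).1)) ∧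
      ∀ t t', τ i ≤ t → t ≤ t' → t' ≤ τ (i + 1) →
        (∀ u, t < u → u < t' → ¬A.Short E w y g s a (c * w.length) (τ i) (D i) u) →
        A.msgs w y g t t' ≤ x ∧ (t' ≤ t + 2 ^ h * (x + 1) ∨ s < h))
    (hD : ∀ i, 0 < i → i < K → (D i).length ≤ z ∧
      ∀ j v : List Bool, j.length ≤ s → j.head? ≠ some false → E.Says w y a (D i) j v →
        (A.conf w y g (τ i)).2 j = v ∧ A.Known E w y g a (τ (i - 1)) (D (i - 1)) (τ i) j)
    (q1 : gd c w.length s a h' k z = 1) (q2 : s < bs c w.length) (q3 : a < bs c w.length)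
    (q4 : h' < bs c w.length) (q5 : k < bs c w.length) (q6 : z < bs c w.length)
    (q7 : 2 + 2 ^ (s + 1) * ((c * w.length + 1) * (2 ^ h' * (x + 1) + 1)) ≤
      2 ^ (s + h' + 5 * ll w.length + 1))
    (q8 : 2 ^ h' * (x + 1) < 2 ^ (s + h' + 5 * ll w.length))
    (q9 : 2 * (x + 1) + 1 ≤ gH w.length h' * (gH w.length h' *
      (gH w.length h' / (s + h' + 5 * ll w.length + 1))))
    (q10 : h ≤ h') (q11 : s < h → 2 ^ (s + 1) * (x + c * w.length + 1) ≤ 2 ^ h' * (x + 1)) :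
    ∃ T < NF c (num w), acc Q c e (num w) (num y) T ≠ 0 := by
  set n := w.length with hn
  have hlog : Nat.log 2 (num w) = n := Pool.Agent.Helper65.LinSpace.log_num w
  set f : ℕ → ℕ := fun i => if i = 0 then s else if i = 1 then a else if i = 2 then h' else
    if i = 3 then k else z with hf
  have hlt : ∀ i < 5, f i < bs c n := by
    intro i _
    simp only [hf]
    split_ifs <;> omega
  set T := tab (bs c n) 5 f with hTd
  have d0 : dig (bs c n) T 0 = s := by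
    rw [hTd, dig_tab hlt (by omega)]
    simp [hf]
  have d1 : dig (bs c n) T 1 = a := by
    rw [hTd, dig_tab hlt (by omega)]
    simp [hf]
  have d2 : dig (bs c n) T 2 = h' := by
    rw [hTd, dig_tab hlt (by omega)]
    simp [hf]
  have d3 : dig (bs c n) T 3 = k := by
    rw [hTd, dig_tab hlt (by omega)]
    simp [hf]
  have d4 : dig (bs c n) T 4 = z := by
    rw [hTd, dig_tab hlt (by omega)]
    simp [hf]
  have hgT : gT c n T = 1 := by
    unfold gT
    rw [d0, d1, d2, d3, d4, q1]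
  have ehT : hT c n T = h' := by
    unfold Sus2.hT
    rw [hgT, d2, one_mul]
  have ekT : kT c n T = k := by
    unfold kT
    rw [hgT, d3, one_mul]
  have hP := hCod T
  have hE := hCodE T
  have hadm := adm_prm hPRM c e (num w) (num y) T
  have h5 := (hPRM.2.2 c e (num w) (num y) T).2.2.2.1
  set P := prm c e (num w) (num y) T with hPdef
  have eS : P.S = s := by
    show gT c (Nat.log 2 (num w)) T * dig (bs c (Nat.log 2 (num w))) T 0 = s
    rw [hlog, hgT, d0, one_mul]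
  have eZ : P.Z = a := by
    show gT c (Nat.log 2 (num w)) T * dig (bs c (Nat.log 2 (num w))) T 1 = a
    rw [hlog, hgT, d1, one_mul]
  have eu : P.u = c * n := by
    show c * Nat.log 2 (num w) = c * n
    rw [hlog]
  have eV : P.V = s + h' + 5 * ll n := by
    show gT c (Nat.log 2 (num w)) T * (dig (bs c (Nat.log 2 (num w))) T 0 +
      dig (bs c (Nat.log 2 (num w))) T 2 + 5 * ll (Nat.log 2 (num w))) = _
    rw [hlog, hgT, d0, d2, one_mul]
  have ez : P.z = z := by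
    show gT c (Nat.log 2 (num w)) T * dig (bs c (Nat.log 2 (num w))) T 4 = z
    rw [hlog, hgT, d4, one_mul]
  rw [hlog, ehT] at hadm
  have hmono : ∀ i, ∀ j, i ≤ j → j ≤ K → τ i ≤ τ j := by
    intro i j hij
    induction j, hij using Nat.le_induction with
    | base => exact fun _ => le_rfl
    | succ j _ ih => exact fun hj => (ih (by omega)).trans (hpart j (by omega)).1
  have hr : ∀ i ≤ K, τ i ≤ r := fun i hi => by
    rw [← hτK]
    exact hmono i K hi le_rfl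
  rw [← eS, ← eZ] at hfit
  rw [← eS, ← eZ] at hD
  rw [← eZ, ← eS, ← eu] at hpart
  rw [← eS, ← eu] at q11
  -- the configurations
  set Cf : ℕ → ℕ := fun i => if i = K then 0 else if τ i = 0 then 1 else
    cn P (A.conf w y g (τ i)).1 (D i) with hCf
  have hcz : 2 ≤ P.cz := by
    unfold Prm.cz
    omega
  have hcz1 : 2 < P.cz := by
    unfold Prm.cz
    have : 0 < 2 ^ (P.S + 1) * 2 ^ (P.z + 1) := by positivity
    omega
  have hC0 : Cf 0 = 1 := by
    simp only [hCf]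
    rw [if_neg (by omega), if_pos hτ0]
  have hCK : Cf K = 0 := by
    show (if K = K then 0 else _) = 0
    rw [if_pos rfl]
  have hC1 : ∀ i, i < K → τ i = 0 → Cf i = 1 := by
    intro i h1 h2
    simp only [hCf]
    rw [if_neg (by omega), if_pos h2]
  have hC2 : ∀ i, i < K → τ i ≠ 0 → Cf i = cn P (A.conf w y g (τ i)).1 (D i) := by
    intro i h1 h2
    simp only [hCf]
    rw [if_neg (by omega), if_neg h2]
  have hpos : ∀ i, τ i ≠ 0 → 0 < i := by
    intro i h1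
    rcases Nat.eq_zero_or_pos i with h2 | h2
    · rw [h2] at h1
      exact absurd hτ0 h1
    · exact h2
  have hCne : ∀ i < K, Cf i ≠ 0 := by
    intro i hi
    by_cases h1 : τ i = 0
    · rw [hC1 i hi h1]
      exact one_ne_zero
    · rw [hC2 i hi h1]
      unfold cn
      omega
  have hqlen : ∀ i ≤ K, (A.conf w y g (τ i)).1.length ≤ P.S := fun i hi =>
    (hfit (τ i) (hr i hi)).1
  have hClt : ∀ i ≤ K, Cf i < P.cz := by
    intro i hi
    rcases Nat.lt_or_ge i K with h1 | h1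
    · by_cases h2 : τ i = 0
      · rw [hC1 i h1 h2]
        omega
      · rw [hC2 i h1 h2]
        exact cn_lt (hqlen i hi) (by rw [ez]; exact (hD i (hpos i h2) h1).1)
    · rw [show i = K by omega, hCK]
      omega
  have hstart : A.start.length ≤ P.S := (hfit 0 (Nat.zero_le _)).1
  have hcq : P.cq 1 ≠ 0 := by
    unfold Prm.cq
    rw [eq01, if_pos rfl, ifz_ne one_ne_zero, hP.hst, capN_num hstart]
    exact (num_pos _).ne'
  have hrep : ∀ i < K, Rep A w y P (Cf i) (A.conf w y g (τ i)) := by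
    intro i hi
    by_cases h1 : τ i = 0
    · rw [hC1 i hi h1, h1]
      exact rep_start hP hcq
    · rw [hC2 i hi h1]
      have hq := hqlen i hi.le
      refine Or.inr ⟨?_, (cq_cn hq).symm, hq, fun j hj => mem_ro _ hj, fun j hj hj2 => ?_⟩
      · unfold cn
        omega
      · by_cases h2 : P.cl (cn P (A.conf w y g (τ i)).1 (D i)) (num j) = 0
        · exact Or.inl h2
        · obtain ⟨v, hv⟩ := (cl_says hDEC hP hE hq j).2 h2
          rw [(cl_says hDEC hP hE hq j).1 v hv]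
          rw [((hD i (hpos i h1) hi).2 j v hj hj2 hv).1]
          exact Or.inr rfl
  have hkn : ∀ i < K, ∀ t j, A.Known E w y g P.Z (τ i) (D i) t j →
      KnownN A w y g P (Cf i) (τ i) t j := by
    intro i hi t j hk
    by_cases h1 : τ i = 0
    · refine Or.inr (Or.inl ?_)
      rw [hC1 i hi h1, cl_one]
      exact one_ne_zero
    · rcases hk with h2 | h2 | ⟨v, hv⟩ | h2
      · exact absurd h2 h1
      · exact Or.inl h2
      · refine Or.inr (Or.inl ?_)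
        rw [hC2 i hi h1, (cl_says hDEC hP hE (hqlen i hi.le) j).1 v hv]
        exact (num_pos _).ne'
      · exact Or.inr (Or.inr h2)
  have hkn' : ∀ i < K, ∀ t j, KnownN A w y g P (Cf i) (τ i) t j →
      A.Known E w y g P.Z (τ i) (D i) t j := by
    intro i hi t j hk
    by_cases h1 : τ i = 0
    · exact Or.inl h1
    · rcases hk with h2 | h2 | h2
      · exact Or.inr (Or.inl h2)
      · rw [hC2 i hi h1] at h2
        exact Or.inr (Or.inr (Or.inl ((cl_says hDEC hP hE (hqlen i hi.le) j).2 h2)))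
      · exact Or.inr (Or.inr (Or.inr h2))
  have hshort : ∀ i < K, ∀ u ≤ r, A.Short E w y g P.S P.Z P.u (τ i) (D i) u →
      ∃ e < 2 + 2 ^ (P.S + 1) * 2 ^ (P.u + 1), Exact A w y g P (Cf i) (τ i) u e := by
    rintro i hi u hu ⟨d, hd1, hd2⟩
    have hq := (hfit u hu).1
    refine ⟨cn P (A.conf w y g u).1 d, ?_, ?_, cq_cn hq, fun j hj hj2 => ⟨fun hk => ?_,
      fun hk => ?_⟩⟩
    · have h1 := num_lt' hq
      have h2 := num_lt' hd1
      have h3 : num (A.conf w y g u).1 + 2 ^ (P.S + 1) * num d < 2 ^ (P.S + 1) * (num d + 1) := by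
        rw [mul_add, mul_one]
        omega
      have h4 : 2 ^ (P.S + 1) * (num d + 1) ≤ 2 ^ (P.S + 1) * 2 ^ (P.u + 1) :=
        Nat.mul_le_mul_left _ h2
      unfold cn
      omega
    · unfold cn
      omega
    · exact (cl_says hDEC hP hE hq j).1 _ ((hd2 j _ hj hj2).2 ⟨hkn' i hi u j hk, rfl⟩)
    · by_contra hne
      obtain ⟨v, hv⟩ := (cl_says hDEC hP hE hq j).2 hne
      exact hk (hkn i hi u j ((hd2 j v hj hj2).1 hv).1)
  have hedge : ∀ i < K, edge P (FF Q n h' P) (Cf i) (Cf (i + 1)) ≠ 0 := by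
    intro i hi
    obtain ⟨p1, p2, p3, p4⟩ := hpart i hi
    by_cases hz : i + 1 < K ∧ τ (i + 1) = 0
    · have h1 : τ i = 0 := by omega
      rw [hC1 i hi h1, hC1 (i + 1) hz.1 hz.2]
      unfold edge
      rw [eq01, if_pos rfl]
      omega
    have hn1 : Cf (i + 1) ≠ 0 → i + 1 < K ∧ τ (i + 1) ≠ 0 := by
      intro h0
      have h1 : i + 1 < K := by
        rcases Nat.lt_or_ge (i + 1) K with h1 | h1
        · exact h1
        · rw [show i + 1 = K by omega, hCK] at h0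
          exact absurd rfl h0
      exact ⟨h1, fun h2 => hz ⟨h1, h2⟩⟩
    refine hEDC A w y P hP h5 (FF Q n h' P) x (2 ^ h' * (x + 1)) g r (τ i) (τ (i + 1)) (Cf i)
      (Cf (i + 1)) (fun c' p d p' Y τ' a' _ _ hF => FF_sound Q hSIL hadm hF) ?_ p1
      (hr _ (by omega)) hfit p2 ?_ ?_ (hCne i hi) (hrep i hi) ?_ ?_ ?_ ?_
    · intro c' p d p' Y τ' a' _ _ hT' hτ' hch
      refine FF_complete Q hSIL hadm hT' hτ' hch ?_
      rw [eV]
      exact q9
    · rw [eS, eu, eV]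
      exact q7
    · rw [eV]
      exact q8
    · intro t ht1 ht2
      exact hkn i hi t _ (p3 t ht1 ht2)
    · intro t t' ht1 ht2 ht3 hno
      obtain ⟨m1, m2⟩ := p4 t t' ht1 ht2 ht3 fun u hu1 hu2 hs => by
        obtain ⟨e', he', he2⟩ := hshort i hi u (by have := hr (i + 1) (by omega); omega) hs
        exact hno u hu1 hu2 e' he' he2
      refine ⟨m1, ?_⟩
      rcases m2 with m2 | m2
      · refine m2.trans ?_
        have : 2 ^ h * (x + 1) ≤ 2 ^ h' * (x + 1) :=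
          Nat.mul_le_mul_right _ (Nat.pow_le_pow_right (by omega) q10)
        omega
      · have h6 := hTIM A w y g r P.S P.Z hfit hacc hmin x P.u t t' ht2
          (by have := hr (i + 1) (by omega); omega) m1 ((guesses_mono' ht3 ht1).trans p2)
        have h7 := q11 m2
        omega
    · intro h0
      have : i + 1 = K := by
        by_contra hne
        exact hCne (i + 1) (by omega) h0
      rw [this]
      exact ⟨hτK, hacc⟩
    · intro h0
      obtain ⟨h1, h2⟩ := hn1 h0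
      refine ⟨?_, hrep (i + 1) h1, fun j hj hj2 hne => ?_⟩
      · rw [hC2 (i + 1) h1 h2]
        unfold cn
        omega
      · rw [hC2 (i + 1) h1 h2] at hne
        obtain ⟨v, hv⟩ := (cl_says hDEC hP hE (hqlen (i + 1) h1.le) j).2 hne
        exact hkn i hi _ _ ((hD (i + 1) (Nat.succ_pos i) h1).2 j v hj hj2 hv).2
  have hrc := hRCC (edge P (FF Q n h' P)) P.cz k (fun c' => by
      unfold edge
      rw [eq01, if_pos rfl]
      omega) K Cf hK (fun i hi => hClt i hi) hedge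
  rw [hC0, hCK] at hrc
  refine ⟨T, ?_, ?_⟩
  · unfold NF
    rw [hlog]
    exact tab_lt hlt
  · unfold acc
    rw [hlog, ehT, ekT, hgT, one_mul]
    exact mul_ne_zero (lt_ne.2 hcq) hrc

/-- The parts of the proof. -/
structure Parts : Prop where
  cod : COD_stmt
  sil : SIL_stmt
  dec : DEC_stmt
  eds : EDS_stmt
  rcs : RCS_stmt
  rcc : RCC_stmt
  edc : EDC_stmt
  tim : TIM_stmt
  lsw : LSW_stmt
  lse : LSE_stmt
  prm : PRM_stmt
  pah : PAH_stmt

theorem exists_good (Q : Sim) (H : Parts) (c : ℕ) (A : NBM) (E : Decomp) (C : ℝ) :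
    ∃ e n₀ : ℕ, ∀ w y : List Bool, n₀ ≤ w.length →
    (∀ T < NF c (num w), acc Q c e (num w) (num y) T ≠ 0 → ∃ g r, A.AcceptsAt w y g r) ∧
    (A.Good E c C w y → ∃ T < NF c (num w), acc Q c e (num w) (num y) T ≠ 0) := by
  obtain ⟨cd, c₀, hcd⟩ := H.cod A E
  obtain ⟨e, he⟩ := exists_cdeN cd
  obtain ⟨n₀, hn₀⟩ := eventually_atTop.1 (ev_cod c₀)
  obtain ⟨n₁, hn₁⟩ := eventually_atTop.1 (H.pah C c)
  refine ⟨e, n₀ + n₁, fun w y hw => ?_⟩
  have hlog : Nat.log 2 (num w) = w.length := Pool.Agent.Helper65.LinSpace.log_num w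
  have hCod : ∀ T, Cod A w y (Sus2.prm c e (num w) (num y) T) ∧
      CodE E (Sus2.prm c e (num w) (num y) T) := by
    intro T
    obtain ⟨_, _, _, _, h5, h6⟩ := H.prm.2.2 c e (num w) (num y) T
    rw [hlog] at h5 h6
    obtain ⟨g1, g2, g3⟩ := hn₀ w.length (by omega) _ h5 _ h6
    obtain ⟨g4, g5⟩ := g3 (num w) hlog
    refine hcd w y _ he rfl rfl ?_ ?_ g4 g5
    · show _ ≤ LW (Nat.log 2 (num w))
      rw [hlog]
      exact g1
    · show c₀ + LW (Nat.log 2 (num w)) + _ + _ + 8 ≤ 2 ^ (2 * ll (Nat.log 2 (num w)))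
      rw [hlog]
      exact g2
  refine ⟨fun T _ hT => sound Q H.sil H.eds H.rcs H.prm (hCod T).1 hT, ?_⟩
  rintro ⟨g, r, s, a, x, h, z, k, K, τ, D, hacc, hfit, hτ0, hτK, hK0, hK, hpart, hD, b1, b2, b3,
    b4⟩
  obtain ⟨h', q10, q11, q1, q2, q3, q4, q5, q6, q7, q8, q9⟩ :=
    hn₁ w.length (by omega) s a x h z k b1 b2 b3 b4
  obtain ⟨r₀, K', k1, k2, k3, k4, k5, k6, k7⟩ :=
    exists_cut hacc hτ0 hτK hK0 fun i hi => (hpart i hi).1
  have m1 : ∀ i < K', min (τ i) r₀ = τ i := fun i hi => min_eq_left (k6 i hi)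
  refine complete Q H.sil H.dec H.edc H.tim H.rcc H.prm (fun T => (hCod T).1)
    (fun T => (hCod T).2) (g := g) (r := r₀) (s := s) (a := a) (x := x) (h := h) (h' := h')
    (z := z) (k := k) (K := K') (τ := fun i => min (τ i) r₀) (D := D) k1 k2
    (fun t ht => hfit t (ht.trans k3)) ?_ (min_eq_right k7) k4 (k5.trans hK) ?_ ?_ q1 q2 q3 q4 q5
    q6 q7 q8 q9 q10 q11
  · show min (τ 0) r₀ = 0
    rw [hτ0, Nat.zero_min]
  · intro i hi
    obtain ⟨p1, p2, p3, p4⟩ := hpart i (by omega)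
    show min (τ i) r₀ ≤ min (τ (i + 1)) r₀ ∧ A.guesses w y g (min (τ i) r₀)
      (min (τ (i + 1)) r₀) ≤ c * w.length ∧ (∀ t, min (τ i) r₀ ≤ t → t < min (τ (i + 1)) r₀ →
        A.Known E w y g a (min (τ i) r₀) (D i) t (A.addr (A.conf w y g t).1)) ∧
      ∀ t t', min (τ i) r₀ ≤ t → t ≤ t' → t' ≤ min (τ (i + 1)) r₀ →
        (∀ u, t < u → u < t' → ¬A.Short E w y g s a (c * w.length) (min (τ i) r₀) (D i) u) →
        A.msgs w y g t t' ≤ x ∧ (t' ≤ t + 2 ^ h * (x + 1) ∨ s < h)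
    rw [m1 i hi]
    refine ⟨le_min p1 (k6 i hi), (guesses_mono (min_le_left _ _)).trans p2,
      fun t h1 h2 => p3 t h1 (h2.trans_le (min_le_left _ _)),
      fun t t' h1 h2 h3 h4 => p4 t t' h1 h2 (h3.trans (min_le_left _ _)) h4⟩
  · intro i hi0 hi
    obtain ⟨p1, p2⟩ := hD i hi0 (by omega)
    refine ⟨p1, fun j v hj hj2 hs => ?_⟩
    show (A.conf w y g (min (τ i) r₀)).2 j = v ∧
      A.Known E w y g a (min (τ (i - 1)) r₀) (D (i - 1)) (min (τ i) r₀) j
    rw [m1 i hi, m1 (i - 1) (by omega)]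
    exact p2 j v hj hj2 hs

/-- **Hardness for machines with messages and described memory.** -/
theorem sus_main (Qs : Sim) (H : Parts) (c : ℕ) (hc : 0 < c) :
    ∃ L : Set (List Bool), DLINSPACE L ∧
      ∀ (A : NBM) (E : Decomp) (C : ℝ), ∃ c' : ℝ, ∀ (n : ℕ) (α : List Bool), ∀ M, M = L ∨ M = Lᶜ →
        ({w : List Bool | w.length = n ∧
          (Q (c * n) (fun v => ∃ g r, A.AcceptsAt w (α ++ v) g r) → w ∈ M) ∧
          (w ∈ M → Q (c * n) fun v => A.Good E c C w (α ++ v))}.ncard : ℝ) ≤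
          2 ^ n / 2 + c' * ((α.length : ℝ) + 1) * 2 ^ (((n : ℝ) + α.length / c) / 2) := by
  obtain ⟨L, h1, h4⟩ := q_main (acc Qs c) (NF c) (LS.acc Qs H.lsw H.lse H.prm c) (LS.NF c) c c hc
  exact ⟨L, h1, fun A E C => h4 (fun w y => ∃ g r, A.AcceptsAt w y g r) (A.Good E c C)
    (exists_good Qs H c A E C)⟩

/-- Languages accepted by machines with messages and described memory are in linear space. -/
theorem sus_lin (Qs : Sim) (H : Parts) (c : ℕ) (A : NBM) (E : Decomp) (L : Set (List Bool))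
    (C : ℝ) (h1 : ∀ w, Q (c * w.length) (fun v => ∃ g r, A.AcceptsAt w v g r) → w ∈ L)
    (h2 : ∀ w ∈ L, Q (c * w.length) (A.Good E c C w)) : DLINSPACE L :=
  q_lin (acc Qs c) (NF c) (LS.acc Qs H.lsw H.lse H.prm c) (LS.NF c) c L
    (fun w y => ∃ g r, A.AcceptsAt w y g r) (A.Good E c C) (exists_good Qs H c A E C) h1 h2

end Pool.Agent.Helper81.Sus3
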