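import Pool.Agent.Helper81.Sus3.Num

/-!
# Sustained complexity of the memory, any time: the statements of the parts

Every statement comes with its proof in words. Most proofs are small changes of proofs for `Sus2`,
whose files are named.
-/

namespace Pool.Agent.Helper81.Sus3

open Pool.Agent.Helper65.LinSpace Pool.Agent.Helper78.Mpc Pool.Agent.Helper28.Ram Finset Filter
open Pool.Agent.Helper28.Sus (gf chs rc)
open Pool.Agent.Helper81.Sus2
open Pool.Agent.Helper81.Tok3 (gH)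
open Pool.Agent.Helper31.SusD (nxt)

/-! ### A window -/

/-- The configuration after `t` steps and the number of guessed letters, from a configuration and a
number of letters which were guessed before; the guessed letters are the bits of `Y`. -/
def ptc (A : NBM) (Y : ℕ) (c : (List Bool × (List Bool → List Bool)) × ℕ) :
    ℕ → (List Bool × (List Bool → List Bool)) × ℕ
  | 0 => c
  | t + 1 => (A.step (decide (dig 2 Y (ptc A Y c t).2 = 1)) (ptc A Y c t).1,
      (ptc A Y c t).2 + (A.ask (ptc A Y c t).1.1).toNat)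

theorem ptc_add (A : NBM) (Y : ℕ) (c : (List Bool × (List Bool → List Bool)) × ℕ) (t u : ℕ) :
    ptc A Y c (t + u) = ptc A Y (ptc A Y c t) u := by
  induction u with
  | zero => rfl
  | succ u ih =>
    show (A.step (decide (dig 2 Y (ptc A Y c (t + u)).2 = 1)) (ptc A Y c (t + u)).1,
      (ptc A Y c (t + u)).2 + (A.ask (ptc A Y c (t + u)).1.1).toNat) = _
    rw [ih]
    rfl

theorem run_ptc (A : NBM) (Y : ℕ) (c : (List Bool × (List Bool → List Bool)) × ℕ) (t : ℕ) :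
    A.run (fun i => decide (dig 2 Y (ptc A Y c i).2 = 1)) c.1 t = (ptc A Y c t).1 := by
  induction t with
  | zero => rfl
  | succ t ih =>
    show A.step (decide (dig 2 Y (ptc A Y c t).2 = 1)) (A.run _ c.1 t) = _
    rw [ih]
    rfl

/-- SND. Soundness of the machine on numbers. As SND of `Sus2` (`Sus2/SND.lean`), with the start
`p` of the counter, and two more comparisons at the end: `dp Q = p'` if `p' ≤ u`, and the content
`v` of the register `a ≠ 0`, which is `0` or `num` of the right content, is equal to `cl d a`. -/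
def SND_stmt : Prop := ∀ (A : NBM) (w y : List Bool) (P : Prm), Cod A w y P → P.S ≤ P.V →
    ∀ (c p d p' a τ Y T : ℕ) (f : List Bool × (List Bool → List Bool)), c ≠ 0 → Rep A w y P c f →
    p ≤ P.u → a < 2 ^ (P.S + 1) → (vf P τ Y c p d p' a T).1 = 1 →
    (ptc A Y (f, p) τ).1.1.length ≤ P.S ∧ (ptc A Y (f, p) τ).2 ≤ P.u ∧
    (d = 0 → (ptc A Y (f, p) τ).1.1.head? = some true) ∧
    (d ≠ 0 → num (ptc A Y (f, p) τ).1.1 = P.cq d ∧
      (p' ≤ P.u → (ptc A Y (f, p) τ).2 = p') ∧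
      ∀ i : List Bool, num i = a → P.cl d a = 0 ∨ P.cl d a = num ((ptc A Y (f, p) τ).1.2 i))

/-- The condition of the final check: `c` is the configuration at the start, `g`, `f` the computation,
`τ` its length, `p` the number of the letters guessed before it. -/
def FC (A : NBM) (P : Prm) (c p d p' a τ : ℕ) (g : ℕ → Bool)
    (f : List Bool × (List Bool → List Bool)) : Prop :=
  (d = 0 → (A.run g f τ).1.head? = some true) ∧
  (d ≠ 0 → P.cq d = num (A.run g f τ).1 ∧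
    (p' ≤ P.u → p' = p + ∑ i ∈ range τ, (A.ask (A.run g f i).1).toNat) ∧
    (a ≠ 0 → ∀ i : List Bool, num i = a →
      (Known A P c (A.run g f) τ i → P.cl d a = num ((A.run g f τ).2 i)) ∧
      (¬Known A P c (A.run g f) τ i → P.cl d a = 0)))

/-- CMP. Completeness of the machine on numbers, and exactness. As CMP of `Sus2` (`Sus2/CMP.lean`), with
the counter `p + p_t`. Invariant for `t ≤ τ`: `(vf … t).1 = enc (num q_t) (p + p_t) t`, and for all
`|i| ≤ S` the content `(vf … t).2 (num i)` is `num (M_t i)` if `i` is known after `t` steps, and `0`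
otherwise. (Not known: at `t = 0` the content is `cl c (num i) = 0`; a message which does not reset `i`
gives `fW … 0 = 0`, since `catN _ 0 = 0` and `fnN_zero`, see `Sus2/SND.lean`; and `i` is not read-only.) At
the time `τ` the final check gives `1` if `FC` holds, and otherwise not `1`; then the event is kept
(`0` and `1` are kept, and `vF ≤ 1`). For `a ≠ 0`, `a < 2 ^ (S + 1)`, there is exactly one word `i` with
`num i = a`, and `|i| ≤ S`. -/
def CMP_stmt : Prop := ∀ (A : NBM) (w y : List Bool) (P : Prm), Cod A w y P → P.S ≤ P.V →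
    ∀ (c p d p' a τ Y : ℕ) (g : ℕ → Bool) (f : List Bool × (List Bool → List Bool)), c ≠ 0 →
    Rep A w y P c f →
    (∀ t ≤ τ, (A.run g f t).1.length ≤ P.S ∧ (A.addr (A.run g f t).1).length ≤ P.S ∧
      ∀ i : List Bool, i.length ≤ P.S → ((A.run g f t).2 i).length ≤ P.Z) →
    (∀ t < τ, Known A P c (A.run g f) t (A.addr (A.run g f t).1)) →
    (∀ t < τ, A.ask (A.run g f t).1 = true →
      dig 2 Y (p + ∑ i ∈ range t, (A.ask (A.run g f i).1).toNat) = (g t).toNat) →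
    p + ∑ i ∈ range τ, (A.ask (A.run g f i).1).toNat ≤ P.u →
    2 + 2 ^ (P.S + 1) * ((P.u + 1) * (τ + 1)) ≤ 2 ^ (P.V + 1) →
    a < 2 ^ (P.S + 1) →
    (FC A P c p d p' a τ g f → ∀ T, τ < T → (vf P τ Y c p d p' a T).1 = 1) ∧
    (∀ T, (vf P τ Y c p d p' a T).1 = 1 → FC A P c p d p' a τ g f) ∧
    chs (P.wA τ a) (vN P τ Y d p' a) P.wQ P.wW (v0 P c p) (P.cm c) (τ + 1) ≤
      {t | t < τ ∧ A.msg (A.run g f (t + 1)).1 = true}.ncard

/-- SIL. As SIL of `Sus2` (`Sus2/SIL.lean`). -/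
def SIL_stmt : Prop := ∀ (P : Prm) (τ Y c p d p' a : ℕ),
    (∀ t x f, P.wQ f ≠ 0 → P.wW x f ((vf P τ Y c p d p' a t).2 x) =
      (vf P τ Y c p d p' a t).2 x) ∧
    ∀ t, (vf P τ Y c p d p' a t).1 = 1 → (vf P τ Y c p d p' a (t + 1)).1 = 1

/-! ### The greedy sequence -/

/-- GRD. As `itr_sound` and `itr_complete` (`SusD/Grd.lean`), with an arbitrary start `e₀` and a bound
`M` for the steps. For the bound of `j`: the first `J` with the property is at most `Z`, since otherwise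
two of the `Z + 1` values with the numbers `1, …, Z + 1` (all smaller than `Z`, `nxt_lt`) agree, and then
the sequence is periodic from there, and the property would hold earlier. -/
def GRD_stmt : Prop :=
  (∀ (ch : ℕ → ℕ → ℕ → ℕ) (N Z e₀ : ℕ) (R : ℕ → ℕ → Prop), R e₀ 0 →
    (∀ c t τ d, R c t → τ < N → ch c τ d ≠ 0 → R d (t + τ)) →
    ∀ j, nrec e₀ (fun _ e => nxt ch N Z e) j = 0 ∨
      ∃ t, R (nrec e₀ (fun _ e => nxt ch N Z e) j) t) ∧
  (∀ (ac : ℕ → ℕ → ℕ) (chk : ℕ → ℕ → ℕ → ℕ) (N Z e₀ r M : ℕ) (R : ℕ → ℕ → Prop), 0 < Z →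
    R e₀ 0 → (∀ c t, R c t → c ≠ 0) →
    (∀ c t τ d, R c t → t + τ ≤ r → τ ≤ M → chk c τ d ≠ 0 → R d (t + τ) ∧ 0 < τ) →
    (∀ c t, R c t → t ≤ r → (∃ τ < N, ac c τ ≠ 0) ∨
      ∃ τ < N, τ ≤ M ∧ t + τ ≤ r ∧ ∃ d < Z, chk c τ d ≠ 0) →
    ∃ j < Z + 1, nrec e₀ (fun _ e => nxt chk N Z e) j ≠ 0 ∧
      ∃ τ < N, ac (nrec e₀ (fun _ e => nxt chk N Z e) j) τ ≠ 0)

/-! ### Edges -/

/-- EDS (may assume SND, GRD). Soundness of the edges. If `c = d` take `t = 0`. Otherwise there are `Y`,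
`j`, `τ` with `seq … j ≠ 0` and `fin … ≠ 0`. Put `f_t = ptc A Y (f, 0) t` and let `R e t` be: `iC e ≠ 0`,
`Rep A w y P (iC e) f_t.1`, `f_t.2 = iP e`. `R ((u + 1) * c) 0` holds. If `R e t` and `chk Y e τ e' ≠ 0`, then
all `F … a` with `a = 0` or `ro a = 0` are `1` (`bad` with `m = 1`), and SND (for the start `f_t`, `p = iP e`,
`p' = iP e' ≤ u`, `ptc_add`) gives `R e' (t + τ)`: `Rep` since every word `i` with `|i| ≤ S` which does not
begin with `false` is checked (`a = num i < 2 ^ (S + 1)`), and read-only registers are never changed. In the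
same way `fin` gives `Rep` for `d` (`m = 0`: only `i` with `cl d (num i) ≠ 0` are checked; for `d = 0` the
state is accepting). `run_ptc` gives the letters. Compare `Sus2/EDS.lean`. -/
def EDS_stmt : Prop := ∀ (A : NBM) (w y : List Bool) (P : Prm), Cod A w y P → P.S ≤ P.V →
    ∀ (F : ℕ → ℕ → ℕ → ℕ → ℕ → ℕ → ℕ → ℕ),
    (∀ c p d p' Y τ a, a < 2 ^ (P.S + 1) → τ < 2 ^ P.V → F c p d p' Y τ a = 1 →
      ∃ T, (vf P τ Y c p d p' a T).1 = 1) →
    ∀ (c d : ℕ) (f : List Bool × (List Bool → List Bool)), edge P F c d ≠ 0 → Rep A w y P c f →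
      ∃ (g : ℕ → Bool) (t : ℕ), Rep A w y P d (A.run g f t)

/-- The number `e` is a configuration with a description of at most `P.u` bits which describes exactly
what is known at the time `t`, if the computation is followed from the time `t₀` and the configuration
`c`. -/
def Exact (A : NBM) (w y : List Bool) (g : ℕ → Bool) (P : Prm) (c t₀ t e : ℕ) : Prop :=
  e ≠ 0 ∧ P.cq e = num (A.conf w y g t).1 ∧
    ∀ i : List Bool, i.length ≤ P.S → i.head? ≠ some false →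
      (KnownN A w y g P c t₀ t i → P.cl e (num i) = num ((A.conf w y g t).2 i)) ∧
      (¬KnownN A w y g P c t₀ t i → P.cl e (num i) = 0)

/-- EDC (may assume CMP, GRD). Completeness of the edges: a part `t₀ ≤ t < t₁` of an accepting computation
`A.conf w y g`, from the configuration `c` to the configuration `d`. Let `p_t` be the number of the asking
steps `t₀ ≤ i < t` and `Y` the number with the bits `dig 2 Y j = ` the letter of the `j`-th asking step
(as in `Sus2/EDC.lean`). Let `R e t` be: `t₀ + t ≤ t₁`, `Exact … (t₀ + t) (iC e)`, `iP e = p_(t₀ + t)`. Then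
`Rep … (iC e) (A.conf w y g (t₀ + t))`, and `Known A P (iC e) (A.run g' (A.conf w y g (t₀ + t))) τ i` with
`g' j = g (t₀ + t + j)` is equivalent to `KnownN … c t₀ (t₀ + t + τ) i` for `|i| ≤ S`. `R ((u + 1) * c) 0` holds.
Apply GRD with `r = t₁ - t₀`, `ac = fin P F d Y`, `chk P F Y`. If `R e t`, `chk Y e τ e' ≠ 0`,
`t₀ + t + τ ≤ t₁`, `τ ≤ M`, then all `F … a` with `a = 0` or `ro a = 0` are `1`, so by the soundness of `F` and
CMP (second part) `FC` holds, which gives `R e' (t + τ)`; `0 < τ` is a factor of `chk`. If `R e t`, let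
`u > t₀ + t` be the least time with `u < t₁` for which there is an `e'` with `Exact … u e'` and
`e' < 2 + 2 ^ (S + 1) * 2 ^ (u + 1)`. If there is none, then the window from `t₀ + t` to `t₁` has at most `x`
messages and `M` steps, and `fin … e (t₁ - t₀ - t) ≠ 0` by CMP (first part) and the completeness of `F` (for
`p' = P.u + 1` there is no condition; registers which `d` describes are known). Otherwise the window from
`t₀ + t` to `u` gives `chk … e (u - t₀ - t) (p_u + (P.u + 1) * e') ≠ 0`. -/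
def EDC_stmt : Prop := ∀ (A : NBM) (w y : List Bool) (P : Prm), Cod A w y P → P.S ≤ P.V →
    ∀ (F : ℕ → ℕ → ℕ → ℕ → ℕ → ℕ → ℕ → ℕ) (x M : ℕ) (g : ℕ → Bool) (r t₀ t₁ c d : ℕ),
    (∀ c p d p' Y τ a, a < 2 ^ (P.S + 1) → τ < 2 ^ P.V → F c p d p' Y τ a = 1 →
      ∃ T, (vf P τ Y c p d p' a T).1 = 1) →
    (∀ c p d p' Y τ a, a < 2 ^ (P.S + 1) → τ < 2 ^ P.V →
      (∀ T, τ < T → (vf P τ Y c p d p' a T).1 = 1) → τ ≤ M →
      chs (P.wA τ a) (vN P τ Y d p' a) P.wQ P.wW (v0 P c p) (P.cm c) (τ + 1) ≤ x →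
      F c p d p' Y τ a = 1) →
    t₀ ≤ t₁ → t₁ ≤ r → A.Fits w y g r P.S P.Z → A.guesses w y g t₀ t₁ ≤ P.u →
    2 + 2 ^ (P.S + 1) * ((P.u + 1) * (M + 1)) ≤ 2 ^ (P.V + 1) → M < 2 ^ P.V →
    c ≠ 0 → Rep A w y P c (A.conf w y g t₀) →
    (∀ t, t₀ ≤ t → t < t₁ → KnownN A w y g P c t₀ t (A.addr (A.conf w y g t).1)) →
    (∀ t t', t₀ ≤ t → t ≤ t' → t' ≤ t₁ →
      (∀ u, t < u → u < t' → ∀ e < 2 + 2 ^ (P.S + 1) * 2 ^ (P.u + 1),
        ¬Exact A w y g P c t₀ u e) →
      A.msgs w y g t t' ≤ x ∧ t' ≤ t + M) →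
    (d = 0 → t₁ = r ∧ A.AcceptsAt w y g r) →
    (d ≠ 0 → d ≠ 1 ∧ Rep A w y P d (A.conf w y g t₁) ∧
      ∀ i : List Bool, i.length ≤ P.S → i.head? ≠ some false → P.cl d (num i) ≠ 0 →
        KnownN A w y g P c t₀ t₁ i) →
    edge P F c d ≠ 0

/-- TIM. Before the first accepting time (of this computation) the number of steps is bounded by the
numbers of messages and guesses. As `SusD/Time.lean`: in a stretch without messages and guesses two
equal states give a loop, and the accepting state would have been reached before; so such a stretch has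
less than `2 ^ (s + 1)` steps. Induction on `x + u`. -/
def TIM_stmt : Prop := ∀ (A : NBM) (w y : List Bool) (g : ℕ → Bool) (r s a : ℕ),
    A.Fits w y g r s a → A.AcceptsAt w y g r → (∀ r' < r, ¬A.AcceptsAt w y g r') →
    ∀ x u t t' : ℕ, t ≤ t' → t' ≤ r → A.msgs w y g t t' ≤ x → A.guesses w y g t t' ≤ u →
      t' ≤ t + 2 ^ (s + 1) * (x + u + 1)

/-! ### Linear space -/

/-- LSW. The functions of the machine on numbers are computed in linear space. As LSW of `Sus2`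
(`Sus2/LSW.lean`), which can be used for `wA`, `wQ`, `wW`, `cm`, `cz`. -/
def LSW_stmt : Prop := ∀ (α : Type) [Ctx α] (P : α → Prm) (C c p d p' Y τ a : α → ℕ), LSP P C →
    LS c → LS p → LS d → LS p' → LS Y → LS τ → LS a →
    LS (fun z : α × ℕ => (P z.1).wA (τ z.1) (a z.1) z.2) ∧
    LS (fun z : α × ℕ × ℕ => vN (P z.1) (τ z.1) (Y z.1) (d z.1) (p' z.1) (a z.1) z.2.1 z.2.2) ∧
    LS (fun z : α × ℕ => (P z.1).wQ z.2) ∧
    LS (fun z : α × ℕ × ℕ × ℕ => (P z.1).wW z.2.1 z.2.2.1 z.2.2.2) ∧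
    LS (fun z => v0 (P z) (c z) (p z)) ∧
    LS (fun z : α × ℕ => (P z.1).cm (c z.1) z.2) ∧
    LS (fun z => (P z).cz)

/-- LSE. The edges are computed in linear space. `iC`, `iP`, `iZ`: `LS.div`, `LS.mod`, `LS.mul`,
`LS.pow_of_le` (`bS`, `bu` of `LSP`). `bad`, `all`, `chk`, `fin` are at most `1`; `LS.sum_le`. `seq` by
`LS.nrec` with the bound `(u + 1) * c + iZ + 1` and `LS.nxt` of `SusD/Grd.lean` (see `LS.itr`).
Compare `Sus2/LSE.lean`. -/
def LSE_stmt : Prop := ∀ (α : Type) [Ctx α] (P : α → Prm) (C : α → ℕ), LSP P C →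
    ∀ F : α → ℕ → ℕ → ℕ → ℕ → ℕ → ℕ → ℕ → ℕ,
    LS (fun z : α × ℕ × ℕ × ℕ × ℕ × ℕ × ℕ × ℕ => F z.1 z.2.1 z.2.2.1 z.2.2.2.1 z.2.2.2.2.1
      z.2.2.2.2.2.1 z.2.2.2.2.2.2.1 z.2.2.2.2.2.2.2) →
    LS (fun z : α × ℕ × ℕ => edge (P z.1) (F z.1) z.2.1 z.2.2)

/-! ### The parameters -/

/-- PAR. As PAR of `Sus2` (`Sus2/PAR.lean`), with the weaker last hypothesis (`l` without `h`), which is
used there only for `(k + 1) (s + 4 + z) ≤ 5 c (n + 1)` and for `k, z < bs c n`. -/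
def PAR_stmt : Prop := ∀ (C : ℝ) (c : ℕ), ∀ᶠ n : ℕ in atTop, ∀ s a x h z k : ℕ,
    (x : ℝ) * ((s : ℝ) + ((h : ℝ) + ((Nat.log 2 n : ℝ) + 1))) *
        ((h : ℝ) + ((Nat.log 2 n : ℝ) + 1)) ^ 2 ≤ C * ((n : ℝ) + 1) ^ ((3 : ℝ) / 2) →
    ((s : ℝ) + ((h : ℝ) + ((Nat.log 2 n : ℝ) + 1))) * ((h : ℝ) + 1) *
        ((h : ℝ) + ((Nat.log 2 n : ℝ) + 1)) ≤ C * ((n : ℝ) + 1) ^ ((1 : ℝ) / 2) →
    (a : ℝ) * ((h : ℝ) + ((Nat.log 2 n : ℝ) + 1)) ^ 2 ≤ C * ((n : ℝ) + 1) →
    (k + 1) * (z + s + (Nat.log 2 n + 1)) ≤ c * (n + 1) →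
    gd c n s a h k z = 1 ∧ s < bs c n ∧ a < bs c n ∧ h < bs c n ∧ k < bs c n ∧ z < bs c n ∧
    2 + 2 ^ (s + 1) * ((c * n + 1) * (2 ^ h * (x + 1) + 1)) ≤ 2 ^ (s + h + 5 * ll n + 1) ∧
    2 ^ h * (x + 1) < 2 ^ (s + h + 5 * ll n) ∧
    2 * (x + 1) + 1 ≤ gH n h * (gH n h * (gH n h / (s + h + 5 * ll n + 1)))

/-- PAH (may assume PAR). Enlarging `h`. If `h ≤ s` take `h' = h`. If `s < h` take
`h' = h + 2 * ll n`: `2 ^ (s + 1) (x + c n + 1) ≤ 2 ^ h (c n + 1) (x + 1)` and `c n + 1 ≤ 2 ^ (2 * ll n)` for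
large `n` (`lt_two_pow_ll`). Let `λ = ⌊log₂ n⌋ + 1`, `l = h + λ`, `l' = h' + λ`. For large `n`
`l' ≤ 5 l`, so the first and the third inequality hold for `h'` with the constant `125 C`
(`C > 0` by the second one). The second one: if `h ≥ λ` then `h' + 1 ≤ 5 (h + 1)` and the left side is at
most `125` times the old one; if `h < λ` then `s < λ`, and the left side is at most
`(6 λ) (6 λ) (6 λ) ≤ (n + 1) ^ (1 / 2)` for large `n`. So PAR with the constant `125 C + 1` applies to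
`s, a, x, h', z, k` (the last hypothesis of PAR does not depend on `h`). -/
def PAH_stmt : Prop := ∀ (C : ℝ) (c : ℕ), ∀ᶠ n : ℕ in atTop, ∀ s a x h z k : ℕ,
    (x : ℝ) * ((s : ℝ) + ((h : ℝ) + ((Nat.log 2 n : ℝ) + 1))) *
        ((h : ℝ) + ((Nat.log 2 n : ℝ) + 1)) ^ 2 ≤ C * ((n : ℝ) + 1) ^ ((3 : ℝ) / 2) →
    ((s : ℝ) + ((h : ℝ) + ((Nat.log 2 n : ℝ) + 1))) * ((h : ℝ) + 1) *
        ((h : ℝ) + ((Nat.log 2 n : ℝ) + 1)) ≤ C * ((n : ℝ) + 1) ^ ((1 : ℝ) / 2) →
    (a : ℝ) * ((h : ℝ) + ((Nat.log 2 n : ℝ) + 1)) ^ 2 ≤ C * ((n : ℝ) + 1) →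
    (k + 1) * (z + s + (h + (Nat.log 2 n + 1))) ≤ c * (n + 1) →
    ∃ h', h ≤ h' ∧ (s < h → 2 ^ (s + 1) * (x + c * n + 1) ≤ 2 ^ h' * (x + 1)) ∧
    gd c n s a h' k z = 1 ∧ s < bs c n ∧ a < bs c n ∧ h' < bs c n ∧ k < bs c n ∧ z < bs c n ∧
    2 + 2 ^ (s + 1) * ((c * n + 1) * (2 ^ h' * (x + 1) + 1)) ≤ 2 ^ (s + h' + 5 * ll n + 1) ∧
    2 ^ h' * (x + 1) < 2 ^ (s + h' + 5 * ll n) ∧
    2 * (x + 1) + 1 ≤ gH n h' * (gH n h' * (gH n h' / (s + h' + 5 * ll n + 1)))

end Pool.Agent.Helper81.Sus3
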