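import Pool.Agent.Helper81.Sus3.Defs
import Pool.Agent.Helper81.Sus2.Goals2
import Pool.Agent.Helper31.SusD.Grd

/-!
# The machine on numbers for a window of a part of a computation

The parameters, the codes of configurations and of events are those of `Sus2/Num.lean`. A window
starts in a configuration `c` after `p₀` guessed letters of the part.
-/

namespace Pool.Agent.Helper81.Sus3

open Pool.Agent.Helper65.LinSpace Pool.Agent.Helper78.Mpc Pool.Agent.Helper28.Ram Finset
open Pool.Agent.Helper28.Sus (gf chs rc)
open Pool.Agent.Helper81.Sus2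
open Pool.Agent.Helper31.SusD (nxt)

variable (P : Prm)

/-! ### The machine

It starts with the configuration `c` and the number `p` of the letters which were guessed before, and
makes `τ` steps; the bits of `Y` are the guessed letters. Then it compares the state, the number of
guessed letters (if `p'` is at most `P.u`), and the content of the register `a` if `a` is not `0`, with
those of the configuration `d` and with `p'`; if `d = 0` it checks if the state is accepting. -/

/-- The result of the final check. -/
def vF (d p' a Q v : ℕ) : ℕ :=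
  ifz d (accN (P.dq Q)) (eq01 (P.dq Q) (P.cq d) *
    (ifz (lt01 P.u p') (eq01 (P.dp Q) p') 1 * ifz a 1 (eq01 v (P.cl d a))))

/-- The next event. -/
def vN (τ Y d p' a Q v : ℕ) : ℕ :=
  capN P.V (ifz (lt01 1 Q) Q (ifz (eq01 (P.dt Q) τ)
    (ifz (P.fA (P.dq Q) * P.fN (P.dq Q) (dig 2 Y (P.dp Q)) v) 0
      (ifz (P.fK (P.dq Q) * eq01 (P.dp Q) P.u)
        (P.enc (P.fN (P.dq Q) (dig 2 Y (P.dp Q)) v) (P.dp Q + P.fK (P.dq Q)) (P.dt Q + 1)) 0))
    (vF P d p' a Q v)))

/-- The first event. -/
def v0 (c p : ℕ) : ℕ := capN P.V (P.enc (P.cq c) p 0)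

/-- The configuration after `t` steps. -/
def vf (τ Y c p d p' a t : ℕ) : ℕ × (ℕ → ℕ) :=
  gf (P.wA τ a) (vN P τ Y d p' a) P.wW (v0 P c p) (P.cm c) t

/-! ### Windows

An inner configuration of a part is a number `e = p + (P.u + 1) * c`, where `c` is the number of a
configuration, and `p` is the number of the letters of the part which were guessed before. The
descriptions in inner configurations (except the first one) have at most `P.u` bits. -/

/-- The configuration. -/
def iC (e : ℕ) : ℕ := e / (P.u + 1)

/-- The number of the guessed letters. -/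
def iP (e : ℕ) : ℕ := e % (P.u + 1)

/-- Inner configurations, except the first one, are smaller than this number. -/
def iZ : ℕ := (P.u + 1) * (2 + 2 ^ (P.S + 1) * 2 ^ (P.u + 1))

variable (F : ℕ → ℕ → ℕ → ℕ → ℕ → ℕ → ℕ → ℕ)

/-- `1` if the check of the register `a` is necessary and not successful. All registers are checked
if `m` is not `0`, otherwise those which are known in the configuration `d`.
`F c p d p' Y τ a` is the result of the simulation. -/
def bad (m c p d p' Y τ a : ℕ) : ℕ :=
  ifz (ifz a 1 (lt01 0 d * ((1 - Prm.ro a) * ifz m (lt01 0 (P.cl d a)) 1))) 0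
    (1 - eq01 (F c p d p' Y τ a) 1)

/-- `1` if all checks are successful. -/
def all (m c p d p' Y τ : ℕ) : ℕ :=
  eq01 (∑ a ∈ range (2 ^ (P.S + 1)), bad P F m c p d p' Y τ a) 0

/-- `1` if the inner configuration `e'` describes what is known `τ > 0` steps after the inner
configuration `e`. -/
def chk (Y e τ e' : ℕ) : ℕ :=
  lt01 0 τ * (lt01 0 (iC P e') * all P F 1 (iC P e) (iP P e) (iC P e') (iP P e') Y τ)

/-- The greedy sequence of inner configurations of the part which starts with the configuration `c`. -/
def seq (Y c j : ℕ) : ℕ :=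
  nrec ((P.u + 1) * c) (fun _ e => nxt (chk P F Y) (2 ^ P.V) (iZ P) e) j

/-- `1` if the part ends with the configuration `d`, `τ` steps after the inner configuration `e`. -/
def fin (d Y e τ : ℕ) : ℕ := all P F 0 (iC P e) (iP P e) d (P.u + 1) Y τ

/-- A number which is not `0` if there is a part of a computation from the configuration `c` to the
configuration `d`. -/
def edge (c d : ℕ) : ℕ :=
  eq01 c d + lt01 0 c * (ifz d 1 (lt01 1 d) *
    lt01 0 (∑ Y ∈ range (2 ^ P.u), ∑ j ∈ range (iZ P + 1), ∑ τ ∈ range (2 ^ P.V),
      lt01 0 (seq P F Y c j) * fin P F d Y (seq P F Y c j) τ))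

end Pool.Agent.Helper81.Sus3
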